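import Mathlib

/-!
# Domatic game numbers under a change of first player

We prove that for every finite nonempty graph `G` the two domatic game numbers
`gameNumber G alice` (Alice moves first) and `gameNumber G bob` (Bob moves first) differ by at most
one.

Idea of the proof.  Alice plays the real game with `j` colours while she imagines a game with
`j + 1` colours on the same graph, one of the `j + 1` colours (say `l`) being useless for the real
game.  In the imagined game she follows a winning strategy.  When it is her turn in the real game but
Bob's turn in the imagined one, she chooses an uncoloured vertex `x` (the ghost) and imagines that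
Bob has just given it the colour `l`.  Her imagined answer is then played in the real game.  When
Bob really colours the ghost, it is again Alice's turn in the real game and Bob's turn in the
imagined one, and she chooses a new ghost.  At the end each vertex whose imagined colour is not `l`
has the corresponding real colour, so she has won the real game with `j` colours.
-/

set_option autoImplicit false

namespace Pool.Agent.Results.MP_d2c770_co.FirstPlayer

universe u

variable {V : Type u}

/-- `S` is a dominating set of `G`: every vertex lies in `S` or has a neighbour in `S`. -/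
def Dominating (G : SimpleGraph V) (S : Set V) : Prop :=
  ∀ v, v ∈ S ∨ ∃ w ∈ S, G.Adj v w

/-- The two players. -/
inductive Player : Type
  | alice : Player
  | bob : Player

/-- The position reached from `σ` by giving the vertex `v` the colour `c`.  A position is a partial
colouring `σ : V → Option (Fin k)`, where `none` means uncoloured. -/
noncomputable def play {k : ℕ} (σ : V → Option (Fin k)) (v : V) (c : Fin k) :
    V → Option (Fin k) := by
  classical exact fun w => if w = v then some c else σ w

/-- `AliceWins G k X σ`: in the domatic game on `G` with palette `Fin k`, Alice has a winning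
strategy from the position `σ` when player `X` is to move.  The game is finished when every vertex
is coloured, and then Alice has won iff every colour class is dominating. -/
inductive AliceWins (G : SimpleGraph V) (k : ℕ) : Player → (V → Option (Fin k)) → Prop
  | finished (X : Player) (σ : V → Option (Fin k)) (hfull : ∀ v, σ v ≠ none)
      (hdom : ∀ c : Fin k, Dominating G {v | σ v = some c}) : AliceWins G k X σ
  | aliceMove (σ : V → Option (Fin k)) (v : V) (c : Fin k) (hv : σ v = none)
      (h : AliceWins G k Player.bob (play σ v c)) : AliceWins G k Player.alice σ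
  | bobMove (σ : V → Option (Fin k)) (hex : ∃ v, σ v = none)
      (h : ∀ v c, σ v = none → AliceWins G k Player.alice (play σ v c)) :
      AliceWins G k Player.bob σ

/-- The domatic game number: the largest `k ≥ 1` such that Alice has a winning strategy in the game
with palette `Fin k` when `X` moves first. -/
noncomputable def gameNumber (G : SimpleGraph V) (X : Player) : ℕ :=
  sSup {k : ℕ | 1 ≤ k ∧ AliceWins G k X (fun _ => none)}

/-! ### Basic facts on positions -/

theorem play_same {k : ℕ} (σ : V → Option (Fin k)) (v : V) (c : Fin k) :
    play σ v c v = some c := by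
  classical
  simp [play]

theorem play_ne {k : ℕ} (σ : V → Option (Fin k)) {v w : V} (c : Fin k) (h : w ≠ v) :
    play σ v c w = σ w := by
  classical
  simp [play, h]

theorem play_none_iff {k : ℕ} (σ : V → Option (Fin k)) (v w : V) (c : Fin k) :
    play σ v c w = none ↔ w ≠ v ∧ σ w = none := by
  classical
  by_cases h : w = v
  · subst h; simp [play_same]
  · simp [play_ne σ c h, h]

/-- The set of uncoloured vertices. -/
noncomputable def free [Fintype V] {k : ℕ} (σ : V → Option (Fin k)) : Finset V := by
  classical exact Finset.univ.filter (fun v => σ v = none)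

theorem mem_free [Fintype V] {k : ℕ} (σ : V → Option (Fin k)) (v : V) :
    v ∈ free σ ↔ σ v = none := by
  classical
  simp [free]

theorem card_free_play [Fintype V] {k : ℕ} (σ : V → Option (Fin k)) (v : V) (c : Fin k)
    (hv : σ v = none) : (free (play σ v c)).card < (free σ).card := by
  classical
  apply Finset.card_lt_card
  rw [Finset.ssubset_iff_of_subset]
  · refine ⟨v, (mem_free σ v).2 hv, ?_⟩
    rw [mem_free, play_none_iff]
    simp
  · intro w hw
    rw [mem_free, play_none_iff] at hw
    exact (mem_free σ w).2 hw.2

/-- Inversion: at a finished position the win condition holds. -/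
theorem AliceWins.dom_of_full {G : SimpleGraph V} {k : ℕ} {X : Player} {σ : V → Option (Fin k)}
    (h : AliceWins G k X σ) (hfull : ∀ v, σ v ≠ none) (c : Fin k) :
    Dominating G {v | σ v = some c} := by
  cases h with
  | finished _ _ _ hdom => exact hdom c
  | aliceMove _ v c hv h => exact absurd hv (hfull v)
  | bobMove _ hex h => obtain ⟨v, hv⟩ := hex; exact absurd hv (hfull v)

/-- Inversion: if Alice wins with Alice to move and the position is not finished, she has a good
move. -/
theorem AliceWins.exists_move {G : SimpleGraph V} {k : ℕ} {σ : V → Option (Fin k)}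
    (h : AliceWins G k Player.alice σ) (hex : ∃ v, σ v = none) :
    ∃ v c, σ v = none ∧ AliceWins G k Player.bob (play σ v c) := by
  cases h with
  | finished _ _ hfull hdom => obtain ⟨v, hv⟩ := hex; exact absurd hv (hfull v)
  | aliceMove _ v c hv h => exact ⟨v, c, hv, h⟩

/-- Inversion: if Alice wins with Bob to move, she still wins after each move of Bob. -/
theorem AliceWins.all_moves {G : SimpleGraph V} {k : ℕ} {σ : V → Option (Fin k)}
    (h : AliceWins G k Player.bob σ) (v : V) (c : Fin k) (hv : σ v = none) :
    AliceWins G k Player.alice (play σ v c) := by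
  cases h with
  | finished _ _ hfull hdom => exact absurd hv (hfull v)
  | bobMove _ hex h => exact h v c hv

/-! ### The simulation -/

/-- The real position `ρ` (with `j` colours) follows the imagined position `τ` (with `j + 1`
colours, of which `l` is useless). -/
def Follows {j : ℕ} (l : Fin (j + 1)) (τ : V → Option (Fin (j + 1))) (ρ : V → Option (Fin j)) :
    Prop :=
  ∀ v c, τ v = some (l.succAbove c) → ρ v = some c

theorem Follows.dom {j : ℕ} {l : Fin (j + 1)} {τ : V → Option (Fin (j + 1))}
    {ρ : V → Option (Fin j)} (hF : Follows l τ ρ) {G : SimpleGraph V}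
    (h : ∀ c, Dominating G {v | τ v = some c}) (c : Fin j) : Dominating G {v | ρ v = some c} := by
  intro v
  rcases h (l.succAbove c) v with h1 | ⟨w, h1, h2⟩
  · exact Or.inl (hF v c h1)
  · exact Or.inr ⟨w, hF w c h1, h2⟩

/-- Alice copies an imagined move `(y, d)`, replacing a useless colour by an arbitrary one. -/
theorem Follows.play_exists {j : ℕ} (hj : 0 < j) {l : Fin (j + 1)}
    {τ : V → Option (Fin (j + 1))} {ρ : V → Option (Fin j)} (hF : Follows l τ ρ) (y : V)
    (d : Fin (j + 1)) : ∃ e : Fin j, Follows l (play τ y d) (play ρ y e) := by
  by_cases hd : d = l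
  · refine ⟨⟨0, hj⟩, ?_⟩
    intro v c hv
    by_cases hvy : v = y
    · subst hvy
      rw [play_same] at hv
      exfalso
      have h1 : d = l.succAbove c := Option.some.inj hv
      rw [hd] at h1
      exact Fin.succAbove_ne l c h1.symm
    · rw [play_ne _ _ hvy] at hv
      rw [play_ne _ _ hvy]
      exact hF v c hv
  · obtain ⟨e, he⟩ := Fin.exists_succAbove_eq hd
    refine ⟨e, ?_⟩
    intro v c hv
    by_cases hvy : v = y
    · subst hvy
      rw [play_same] at hv ⊢
      have h1 : d = l.succAbove c := Option.some.inj hv
      rw [← he] at h1
      rw [Fin.succAbove_right_injective h1]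
    · rw [play_ne _ _ hvy] at hv
      rw [play_ne _ _ hvy]
      exact hF v c hv

/-- An imagined move of the useless colour at an uncoloured vertex needs no real move. -/
theorem Follows.play_useless {j : ℕ} {l : Fin (j + 1)} {τ : V → Option (Fin (j + 1))}
    {ρ : V → Option (Fin j)} (hF : Follows l τ ρ) (x : V) : Follows l (play τ x l) ρ := by
  intro v c hv
  by_cases hvx : v = x
  · subst hvx
    rw [play_same] at hv
    exfalso
    exact Fin.succAbove_ne l c (Option.some.inj hv).symm
  · rw [play_ne _ _ hvx] at hv
    exact hF v c hv

/-- A real move at the ghost needs no imagined move. -/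
theorem Follows.play_ghost {j : ℕ} {l : Fin (j + 1)} {τ : V → Option (Fin (j + 1))}
    {ρ : V → Option (Fin j)} (hF : Follows l τ ρ) (x : V) (hx : τ x = some l) (e : Fin j) :
    Follows l τ (play ρ x e) := by
  intro v c hv
  by_cases hvx : v = x
  · subst hvx
    rw [hx] at hv
    exfalso
    exact Fin.succAbove_ne l c (Option.some.inj hv).symm
  · rw [play_ne _ _ hvx]
    exact hF v c hv

/-- The same move with a useful colour in both games. -/
theorem Follows.play_both {j : ℕ} {l : Fin (j + 1)} {τ : V → Option (Fin (j + 1))}
    {ρ : V → Option (Fin j)} (hF : Follows l τ ρ) (z : V) (e : Fin j) :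
    Follows l (play τ z (l.succAbove e)) (play ρ z e) := by
  intro v c hv
  by_cases hvz : v = z
  · subst hvz
    rw [play_same] at hv ⊢
    rw [Fin.succAbove_right_injective (Option.some.inj hv)]
  · rw [play_ne _ _ hvz] at hv
    rw [play_ne _ _ hvz]
    exact hF v c hv

/-- The simulation.  First part: there is a ghost `x` and it is Bob's turn in both games.
Second part: there is no ghost, it is Alice's turn in the real game and Bob's turn in the imagined
one. -/
theorem simulation [Fintype V] (G : SimpleGraph V) {j : ℕ} (hj : 0 < j) (l : Fin (j + 1)) :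
    ∀ n : ℕ, ∀ (τ : V → Option (Fin (j + 1))) (ρ : V → Option (Fin j)), (free ρ).card ≤ n →
      Follows l τ ρ → AliceWins G (j + 1) Player.bob τ →
      ((∀ x, τ x = some l → ρ x = none → (∀ v, v ≠ x → (τ v = none ↔ ρ v = none)) →
        AliceWins G j Player.bob ρ) ∧
      ((∀ v, τ v = none ↔ ρ v = none) → AliceWins G j Player.alice ρ)) := by
  intro n
  induction n using Nat.strong_induction_on with
  | _ n ih =>
    intro τ ρ hn hF hW
    -- one step of the real game in which Alice is to move and the imagined game has
    -- already been advanced to `τ'` with Alice to move, `x` being the ghost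
    have step : ∀ (τ' : V → Option (Fin (j + 1))) (ρ' : V → Option (Fin j)) (x : V),
        (free ρ').card ≤ n → Follows l τ' ρ' → AliceWins G (j + 1) Player.alice τ' →
        τ' x = some l → ρ' x = none → (∀ v, v ≠ x → (τ' v = none ↔ ρ' v = none)) →
        AliceWins G j Player.alice ρ' := by
      intro τ' ρ' x hcard hF' hW' hx hρx hfree
      by_cases hex : ∃ v, τ' v = none
      · obtain ⟨y, d, hy, hWy⟩ := hW'.exists_move hex
        have hyx : y ≠ x := by
          rintro rfl
          rw [hx] at hy
          exact absurd hy (by simp)
        obtain ⟨e, he⟩ := hF'.play_exists hj y d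
        have hρy : ρ' y = none := (hfree y hyx).1 hy
        refine AliceWins.aliceMove ρ' y e hρy ?_
        have hlt : (free (play ρ' y e)).card < n :=
          lt_of_lt_of_le (card_free_play ρ' y e hρy) hcard
        refine (ih _ hlt (play τ' y d) (play ρ' y e) le_rfl he hWy).1 x ?_ ?_ ?_
        · rw [play_ne _ _ hyx.symm]
          exact hx
        · rw [play_ne _ _ hyx.symm]
          exact hρx
        · intro v hvx
          rw [play_none_iff, play_none_iff, hfree v hvx]
      · -- only the ghost is left
        push Not at hex
        have hdom := hW'.dom_of_full hex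
        refine AliceWins.aliceMove ρ' x ⟨0, hj⟩ hρx ?_
        refine AliceWins.finished _ _ ?_ ?_
        · intro v hv
          rw [play_none_iff] at hv
          exact hex v ((hfree v hv.1).2 hv.2)
        · exact (hF'.play_ghost x hx ⟨0, hj⟩).dom hdom
    refine ⟨?_, ?_⟩
    · intro x hx hρx hfree
      refine AliceWins.bobMove ρ ⟨x, hρx⟩ ?_
      intro z e hz
      have hlt : (free (play ρ z e)).card < n :=
        lt_of_lt_of_le (card_free_play ρ z e hz) hn
      by_cases hzx : z = x
      · subst hzx
        refine (ih _ hlt τ (play ρ z e) le_rfl (hF.play_ghost z hx e) hW).2 ?_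
        intro v
        rw [play_none_iff]
        by_cases hvz : v = z
        · subst hvz
          simp [hx]
        · simp [hvz, hfree v hvz]
      · have hτz : τ z = none := (hfree z hzx).2 hz
        have hxz : x ≠ z := fun h => hzx h.symm
        refine step (play τ z (l.succAbove e)) (play ρ z e) x hlt.le (hF.play_both z e)
          (hW.all_moves z _ hτz) ?_ ?_ ?_
        · rw [play_ne _ _ hxz]
          exact hx
        · rw [play_ne _ _ hxz]
          exact hρx
        · intro v hvx
          rw [play_none_iff, play_none_iff, hfree v hvx]
    · intro hfree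
      by_cases hex : ∃ v, τ v = none
      · obtain ⟨x, hx⟩ := hex
        refine step (play τ x l) ρ x hn (hF.play_useless x) (hW.all_moves x l hx) (play_same _ _ _)
          ((hfree x).1 hx) ?_
        intro v hvx
        rw [play_none_iff]
        simp [hvx, hfree v]
      · push Not at hex
        refine AliceWins.finished _ _ ?_ (hF.dom (hW.dom_of_full hex))
        intro v hv
        exact hex v ((hfree v).2 hv)

/-- If Alice wins with `j + 1` colours when Bob starts, she wins with `j` colours when she starts. -/
theorem wins_alice_of_bob [Fintype V] (G : SimpleGraph V) {j : ℕ} (hj : 0 < j)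
    (h : AliceWins G (j + 1) Player.bob (fun _ => none)) :
    AliceWins G j Player.alice (fun _ => none) := by
  refine (simulation G hj (Fin.last j) _ (fun _ => none) (fun _ => none) le_rfl ?_ h).2 ?_
  · intro v c hv
    exact absurd hv (by simp)
  · intro v
    simp

/-- If Alice wins with `j + 1` colours when she starts, she wins with `j` colours when Bob starts. -/
theorem wins_bob_of_alice [Fintype V] [Nonempty V] (G : SimpleGraph V) {j : ℕ} (hj : 0 < j)
    (h : AliceWins G (j + 1) Player.alice (fun _ => none)) :
    AliceWins G j Player.bob (fun _ => none) := by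
  obtain ⟨v₀⟩ := ‹Nonempty V›
  obtain ⟨y, d, hy, hW⟩ := h.exists_move ⟨v₀, rfl⟩
  refine (simulation G hj d _ (play (fun _ => none) y d) (fun _ => none) le_rfl ?_ hW).1 y
    (play_same _ _ _) rfl ?_
  · refine Follows.play_useless ?_ y
    intro v c hv
    exact absurd hv (by simp)
  · intro v hvy
    simp [play_ne _ _ hvy]

/-! ### The game number is well defined -/

/-- Alice wins each game with one colour. -/
theorem wins_one [Fintype V] (G : SimpleGraph V) :
    ∀ n : ℕ, ∀ (X : Player) (σ : V → Option (Fin 1)), (free σ).card ≤ n → AliceWins G 1 X σ := by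
  intro n
  induction n using Nat.strong_induction_on with
  | _ n ih =>
    intro X σ hn
    by_cases hex : ∃ v, σ v = none
    · obtain ⟨v, hv⟩ := hex
      cases X with
      | alice =>
        exact AliceWins.aliceMove σ v 0 hv
          (ih _ (lt_of_lt_of_le (card_free_play σ v 0 hv) hn) _ _ le_rfl)
      | bob =>
        refine AliceWins.bobMove σ ⟨v, hv⟩ ?_
        intro w c hw
        exact ih _ (lt_of_lt_of_le (card_free_play σ w c hw) hn) _ _ le_rfl
    · push Not at hex
      refine AliceWins.finished X σ hex ?_
      intro c v
      left
      obtain ⟨d, hd⟩ := Option.ne_none_iff_exists'.1 (hex v)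
      show σ v = some c
      rw [hd, Subsingleton.elim c d]

/-- If Alice wins with `k` colours from some position, some colouring has all classes dominating. -/
theorem AliceWins.exists_colouring [Fintype V] {G : SimpleGraph V} {k : ℕ} (hk : 0 < k)
    {X : Player} {σ : V → Option (Fin k)} (h : AliceWins G k X σ) :
    ∃ τ : V → Option (Fin k), ∀ c, Dominating G {v | τ v = some c} := by
  induction h with
  | finished X σ hfull hdom => exact ⟨σ, hdom⟩
  | aliceMove σ v c hv h ih => exact ih
  | bobMove σ hex h ih =>
    obtain ⟨v, hv⟩ := hex
    exact ih v ⟨0, hk⟩ hv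

theorem le_card_of_wins [Fintype V] [Nonempty V] {G : SimpleGraph V} {k : ℕ}
    {X : Player} (hk : 1 ≤ k) (h : AliceWins G k X (fun _ => none)) : k ≤ Fintype.card V := by
  obtain ⟨τ, hτ⟩ := h.exists_colouring hk
  obtain ⟨v₀⟩ := ‹Nonempty V›
  have hne : ∀ c : Fin k, ∃ v, τ v = some c := by
    intro c
    rcases hτ c v₀ with h1 | ⟨w, h1, _⟩
    · exact ⟨v₀, h1⟩
    · exact ⟨w, h1⟩
  choose f hf using hne
  have hinj : Function.Injective f := by
    intro c d hcd
    have h1 := hf c
    rw [hcd, hf d] at h1
    exact (Option.some.inj h1).symm
  simpa using Fintype.card_le_of_injective f hinj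

/-- Sanity check: the game number is attained, i.e. it is the largest `k ≥ 1` for which Alice
wins. -/
theorem isGreatest_gameNumber [Fintype V] [Nonempty V] (G : SimpleGraph V) (X : Player) :
    IsGreatest {k : ℕ | 1 ≤ k ∧ AliceWins G k X (fun _ => none)} (gameNumber G X) := by
  have hbdd : BddAbove {k : ℕ | 1 ≤ k ∧ AliceWins G k X (fun _ => none)} :=
    ⟨Fintype.card V, fun k hk => le_card_of_wins hk.1 hk.2⟩
  have hne : {k : ℕ | 1 ≤ k ∧ AliceWins G k X (fun _ => none)}.Nonempty :=
    ⟨1, le_rfl, wins_one G _ X _ le_rfl⟩
  exact ⟨Nat.sSup_mem hne hbdd, fun k hk => le_csSup hbdd hk⟩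

/-! ### Sanity check: `AliceWins` is the existence of a winning strategy -/

/-- The positions (with the player to move) that can occur when `X₀` moves first and Alice follows
the strategy `s`, which prescribes a vertex and a colour at each position. -/
inductive Reachable {k : ℕ} (s : (V → Option (Fin k)) → V × Fin k) (X₀ : Player) :
    Player → (V → Option (Fin k)) → Prop
  | start : Reachable s X₀ X₀ (fun _ => none)
  | alice (σ : V → Option (Fin k)) (h : Reachable s X₀ Player.alice σ) (hex : ∃ v, σ v = none) :
      Reachable s X₀ Player.bob (play σ (s σ).1 (s σ).2)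
  | bob (σ : V → Option (Fin k)) (h : Reachable s X₀ Player.bob σ) (v : V) (c : Fin k)
      (hv : σ v = none) : Reachable s X₀ Player.alice (play σ v c)

/-- `s` is a winning strategy of Alice: it always prescribes legal moves, and each finished play
ends with all colour classes dominating. -/
def WinningStrategy (G : SimpleGraph V) {k : ℕ} (s : (V → Option (Fin k)) → V × Fin k)
    (X₀ : Player) : Prop :=
  (∀ σ, Reachable s X₀ Player.alice σ → (∃ v, σ v = none) → σ (s σ).1 = none) ∧
  (∀ X σ, Reachable s X₀ X σ → (∀ v, σ v ≠ none) → ∀ c, Dominating G {v | σ v = some c})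

theorem aliceWins_iff_exists_strategy [Fintype V] [Nonempty V] (G : SimpleGraph V) {k : ℕ}
    (hk : 1 ≤ k) (X₀ : Player) :
    AliceWins G k X₀ (fun _ => none) ↔
      ∃ s : (V → Option (Fin k)) → V × Fin k, WinningStrategy G s X₀ := by
  classical
  constructor
  · intro hW
    obtain ⟨v₀⟩ := ‹Nonempty V›
    let s : (V → Option (Fin k)) → V × Fin k := fun σ =>
      if h : ∃ p : V × Fin k, σ p.1 = none ∧ AliceWins G k Player.bob (play σ p.1 p.2)
      then h.choose else (v₀, ⟨0, hk⟩)
    have hs : ∀ σ, AliceWins G k Player.alice σ → (∃ v, σ v = none) →
        σ (s σ).1 = none ∧ AliceWins G k Player.bob (play σ (s σ).1 (s σ).2) := by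
      intro σ hσ hex
      obtain ⟨v, c, hv, h⟩ := hσ.exists_move hex
      have h' : ∃ p : V × Fin k, σ p.1 = none ∧ AliceWins G k Player.bob (play σ p.1 p.2) :=
        ⟨(v, c), hv, h⟩
      have hsσ : s σ = h'.choose := dif_pos h'
      rw [hsσ]
      exact h'.choose_spec
    have key : ∀ X σ, Reachable s X₀ X σ → AliceWins G k X σ := by
      intro X σ hR
      induction hR with
      | start => exact hW
      | alice σ h hex ih => exact (hs σ ih hex).2
      | bob σ h v c hv ih => exact ih.all_moves v c hv
    exact ⟨s, fun σ hR hex => (hs σ (key _ _ hR) hex).1,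
      fun X σ hR hfull => (key _ _ hR).dom_of_full hfull⟩
  · rintro ⟨s, hleg, hfin⟩
    have key : ∀ n : ℕ, ∀ X σ, (free σ).card ≤ n → Reachable s X₀ X σ → AliceWins G k X σ := by
      intro n
      induction n using Nat.strong_induction_on with
      | _ n ih =>
        intro X σ hn hR
        by_cases hex : ∃ v, σ v = none
        · cases X with
          | alice =>
            have h1 := hleg σ hR hex
            exact AliceWins.aliceMove σ _ _ h1
              (ih _ (lt_of_lt_of_le (card_free_play σ _ _ h1) hn) _ _ le_rfl
                (Reachable.alice σ hR hex))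
          | bob =>
            refine AliceWins.bobMove σ hex ?_
            intro v c hv
            exact ih _ (lt_of_lt_of_le (card_free_play σ v c hv) hn) _ _ le_rfl
              (Reachable.bob σ hR v c hv)
        · push Not at hex
          exact AliceWins.finished X σ hex (hfin X σ hR hex)
    exact key _ _ _ le_rfl Reachable.start

/-- **Main theorem.**  For every finite graph with at least one vertex, the domatic game numbers
with Alice moving first and with Bob moving first differ by at most one. -/
theorem result {V : Type u} [Fintype V] [Nonempty V] (G : SimpleGraph V) :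
    |(gameNumber G Player.alice : ℤ) - (gameNumber G Player.bob : ℤ)| ≤ 1 := by
  obtain ⟨⟨hA1, hA⟩, hAmax⟩ := isGreatest_gameNumber G Player.alice
  obtain ⟨⟨hB1, hB⟩, hBmax⟩ := isGreatest_gameNumber G Player.bob
  have h1 : gameNumber G Player.alice ≤ gameNumber G Player.bob + 1 := by
    by_contra hcon
    push Not at hcon
    obtain ⟨j, hj⟩ : ∃ j, gameNumber G Player.alice = j + 1 :=
      ⟨gameNumber G Player.alice - 1, by omega⟩
    rw [hj] at hA
    have h2 := hBmax ⟨(by omega : 1 ≤ j), wins_bob_of_alice G (by omega) hA⟩
    omega
  have h2 : gameNumber G Player.bob ≤ gameNumber G Player.alice + 1 := by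
    by_contra hcon
    push Not at hcon
    obtain ⟨j, hj⟩ : ∃ j, gameNumber G Player.bob = j + 1 :=
      ⟨gameNumber G Player.bob - 1, by omega⟩
    rw [hj] at hB
    have h2 := hAmax ⟨(by omega : 1 ≤ j), wins_alice_of_bob G (by omega) hB⟩
    omega
  rw [abs_le]
  constructor <;> omega

end Pool.Agent.Results.MP_d2c770_co.FirstPlayer
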